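import Pool.Agent.R34.DP.Stm

open MeasureTheory ProbabilityTheory Set Filter
open scoped NNReal ENNReal Topology

namespace R34.DP

namespace KEY

instance instNull : NullSingletonClass g1 := by
  unfold g1
  exact nullSingletonClass_gaussianReal one_ne_zero

theorem adm_cont {h : ℝ → ℝ} (hh : Adm h) : Continuous h := by
  obtain ⟨⟨K, hK⟩, -⟩ := hh
  exact hK.continuous

theorem adm_int {h : ℝ → ℝ} (hh : Adm h) : Integrable h g1 := by
  obtain ⟨B, hB⟩ := hh.2
  refine Integrable.of_bound (adm_cont hh).aestronglyMeasurable B ?_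
  exact Filter.Eventually.of_forall (fun x => by rw [Real.norm_eq_abs]; exact hB x)

theorem g1_pos {a b : ℝ} (hab : a < b) : 0 < g1.real (Set.Ioc a b) := by
  rw [measureReal_def, ENNReal.toReal_pos_iff]
  refine ⟨?_, measure_lt_top _ _⟩
  rw [pos_iff_ne_zero]
  intro h0
  have h1 : volume (Set.Ioc a b) = 0 := gaussianReal_absolutelyContinuous' 0 one_ne_zero h0
  rw [Real.volume_Ioc, ENNReal.ofReal_eq_zero] at h1
  linarith

theorem phi_eq {h : ℝ → ℝ} (hh : Adm h) (c : ℝ) {a b : ℝ} (hab : a < b) :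
    phi h c a b = (avg h a b - c) * g1.real (Set.Ioc a b) := by
  unfold phi avg
  have hm := g1_pos hab
  rw [integral_sub (adm_int hh).integrableOn (integrable_const c), setIntegral_const, sub_mul,
    div_mul_cancel₀ _ hm.ne', smul_eq_mul, mul_comm c]

theorem phi_self (h : ℝ → ℝ) (c a : ℝ) : phi h c a a = 0 := by
  unfold phi
  simp

theorem int_sub {h : ℝ → ℝ} (hh : Adm h) (c : ℝ) : Integrable (fun t => h t - c) g1 :=
  (adm_int hh).sub (integrable_const c)

theorem phi_add {h : ℝ → ℝ} (hh : Adm h) (c : ℝ) {a b d : ℝ} (hab : a ≤ b) (hbd : b ≤ d) :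
    phi h c a b + phi h c b d = phi h c a d := by
  unfold phi
  rw [← Set.Ioc_union_Ioc_eq_Ioc hab hbd]
  symm
  exact setIntegral_union (Set.Ioc_disjoint_Ioc_of_le le_rfl) measurableSet_Ioc
    (int_sub hh c).integrableOn (int_sub hh c).integrableOn

theorem avg_le {h : ℝ → ℝ} (hh : Adm h) {B : ℝ} (hB : ∀ x, |h x| ≤ B) {a b : ℝ} (hab : a < b) :
    avg h a b ≤ B := by
  have hm := g1_pos hab
  unfold avg
  rw [div_le_iff₀ hm]
  calc ∫ t in Set.Ioc a b, h t ∂g1 ≤ ∫ t in Set.Ioc a b, B ∂g1 :=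
        setIntegral_mono (adm_int hh).integrableOn (integrable_const B)
          (fun t => (le_abs_self _).trans (hB t))
    _ = B * g1.real (Set.Ioc a b) := by rw [setIntegral_const, smul_eq_mul, mul_comm]

theorem le_avg {h : ℝ → ℝ} (hh : Adm h) {B : ℝ} (hB : ∀ x, |h x| ≤ B) {a b : ℝ} (hab : a < b) :
    -B ≤ avg h a b := by
  have hm := g1_pos hab
  unfold avg
  rw [le_div_iff₀ hm]
  calc -B * g1.real (Set.Ioc a b) = ∫ t in Set.Ioc a b, -B ∂g1 := by
        rw [setIntegral_const, smul_eq_mul, mul_comm]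
    _ ≤ ∫ t in Set.Ioc a b, h t ∂g1 :=
        setIntegral_mono (integrable_const _) (adm_int hh).integrableOn
          (fun t => neg_le_of_abs_le (hB t))

theorem bddBelow {h : ℝ → ℝ} (hh : Adm h) (y : ℝ) (a : Set.Iio y) :
    BddBelow (Set.range fun b : Set.Ici y => avg h a b) := by
  obtain ⟨B, hB⟩ := hh.2
  refine ⟨-B, ?_⟩
  rintro _ ⟨b, rfl⟩
  exact le_avg hh hB (lt_of_lt_of_le a.2 b.2)

theorem bddAbove {h : ℝ → ℝ} (hh : Adm h) (y : ℝ) :
    BddAbove (Set.range fun a : Set.Iio y => ⨅ b : Set.Ici y, avg h a b) := by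
  obtain ⟨B, hB⟩ := hh.2
  refine ⟨B, ?_⟩
  rintro _ ⟨a, rfl⟩
  exact (ciInf_le (bddBelow hh y a) ⟨y, Set.mem_Ici.2 le_rfl⟩).trans (avg_le hh hB a.2)

theorem cont_phi {h : ℝ → ℝ} (hh : Adm h) (c a : ℝ) :
    ContinuousOn (fun t => phi h c a t) (Set.Ici a) := by
  have h1 : Continuous (fun b => ∫ x in a..b, (h x - c) ∂g1) :=
    intervalIntegral.continuous_primitive
      (fun p q => (int_sub hh c).intervalIntegrable) a
  refine h1.continuousOn.congr ?_
  intro t ht
  change phi h c a t = ∫ x in a..t, (h x - c) ∂g1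
  rw [intervalIntegral.integral_of_le ht]
  rfl

end KEY

theorem t_KEY1 : S_KEY1 := by
  intro h hh y c hc
  unfold iso at hc
  obtain ⟨a0, ha0⟩ := exists_lt_of_lt_ciSup hc
  have hpos : ∀ b, y ≤ b → 0 < phi h c a0 b := by
    intro b hb
    have h1 : c < avg h a0 b := lt_of_lt_of_le ha0 (ciInf_le (KEY.bddBelow hh y a0) ⟨b, hb⟩)
    have h2 : (a0 : ℝ) < b := lt_of_lt_of_le a0.2 hb
    rw [KEY.phi_eq hh c h2]
    exact mul_pos (by linarith) (KEY.g1_pos h2)
  have ha0y : (a0 : ℝ) < y := a0.2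
  obtain ⟨A, hA, hmin⟩ := (isCompact_Icc (a := (a0 : ℝ)) (b := y)).exists_isMinOn
    (Set.nonempty_Icc.2 ha0y.le) ((KEY.cont_phi hh c a0).mono Set.Icc_subset_Ici_self)
  rw [isMinOn_iff] at hmin
  have hA0 : phi h c a0 A ≤ 0 := by
    have := hmin a0 (Set.left_mem_Icc.2 ha0y.le)
    rwa [KEY.phi_self] at this
  have hAy : A < y := by
    rcases lt_or_eq_of_le hA.2 with h1 | h1
    · exact h1
    · exfalso
      have := hpos y le_rfl
      rw [h1] at hA0
      linarith
  have hnn : ∀ b, A ≤ b → 0 ≤ phi h c A b := by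
    intro b hb
    have h1 := KEY.phi_add hh c hA.1 hb
    rcases le_or_gt b y with h2 | h2
    · have := hmin b ⟨hA.1.trans hb, h2⟩
      linarith
    · have := hpos b h2.le
      linarith
  refine ⟨A, hAy, hnn, ?_⟩
  by_contra hlt
  rw [not_le] at hlt
  have hc1 : ∀ᶠ t in 𝓝 A, h t < (h A + c) / 2 :=
    (KEY.adm_cont hh).continuousAt.eventually (gt_mem_nhds (by linarith))
  rw [Metric.eventually_nhds_iff] at hc1
  obtain ⟨d, hd, hc1⟩ := hc1
  have hlt2 : A < A + d / 2 := by linarith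
  have h3 : phi h c A (A + d / 2) ≤ ((h A + c) / 2 - c) * g1.real (Set.Ioc A (A + d / 2)) := by
    unfold phi
    calc ∫ t in Set.Ioc A (A + d / 2), (h t - c) ∂g1
        ≤ ∫ t in Set.Ioc A (A + d / 2), ((h A + c) / 2 - c) ∂g1 := by
          apply setIntegral_mono_on (KEY.int_sub hh c).integrableOn (integrable_const _)
            measurableSet_Ioc
          intro t ht
          have : dist t A < d := by
            rw [Real.dist_eq, abs_of_pos (by linarith [ht.1])]
            linarith [ht.2]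
          linarith [hc1 this]
      _ = ((h A + c) / 2 - c) * g1.real (Set.Ioc A (A + d / 2)) := by
          rw [setIntegral_const, smul_eq_mul, mul_comm]
  have h4 := hnn _ hlt2.le
  have h5 := KEY.g1_pos hlt2
  have h6 : ((h A + c) / 2 - c) * g1.real (Set.Ioc A (A + d / 2)) < 0 :=
    mul_neg_of_neg_of_pos (by linarith) h5
  linarith

theorem t_KEY2 : S_KEY2 := by
  intro h hh y c A hA hb
  unfold iso
  refine le_ciSup_of_le (KEY.bddAbove hh y) ⟨A, hA⟩ ?_
  apply le_ciInf
  intro b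
  have h1 : A < (b : ℝ) := lt_of_lt_of_le hA b.2
  have h2 := hb b b.2
  rw [KEY.phi_eq hh c h1] at h2
  have h3 := KEY.g1_pos h1
  by_contra h4
  rw [not_le] at h4
  have : (avg h A b - c) * g1.real (Set.Ioc A b) < 0 :=
    mul_neg_of_neg_of_pos (by simpa using h4) h3
  linarith

end R34.DP
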